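import Mathlib
import Pool.Agent.helper21.OE.SpecB

set_option autoImplicit false

/-!
# oe:CFW, the action of the matrix `w` on the coefficients

Helper file for MP_2e0e07_nt (project oe).
-/

namespace Pool.Agent.OE

open MvPolynomial Matrix

theorem CFW_act (d t : ℤ) {κ : Type} [Field κ] (π : Oz d t →+* κ) (j a b : ℕ) (ha : a ≤ j)
    (hb : b ≤ j) : act π !![0, -1; 1, 0] (mon j a b : Pol κ) =
      C ((-1) ^ ((j - a) + (j - b))) * mon j (j - a) (j - b) := by
  have h0 : act π !![0, -1; 1, 0] (X 0 : Pol κ) = X 1 := by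
    unfold act
    rw [aeval_X]
    simp
  have h1 : act π !![0, -1; 1, 0] (X 1 : Pol κ) = - X 0 := by
    unfold act
    rw [aeval_X]
    simp
  have h2 : act π !![0, -1; 1, 0] (X 2 : Pol κ) = X 3 := by
    unfold act
    rw [aeval_X]
    simp
  have h3 : act π !![0, -1; 1, 0] (X 3 : Pol κ) = - X 2 := by
    unfold act
    rw [aeval_X]
    simp
  unfold mon
  rw [map_mul, map_mul, map_mul, map_pow, map_pow, map_pow, map_pow, h0, h1, h2, h3,
    Nat.sub_sub_self ha, Nat.sub_sub_self hb, neg_pow (X 0 : Pol κ), neg_pow (X 2 : Pol κ), C_pow,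
    C_neg, C_1, pow_add]
  ring

theorem CFW (hEXQ : EXQ_stmt) : CFW_stmt := by
  intro d t κ _ π j P hP a b ha hb
  have hact : act π !![0, -1; 1, 0] P = ∑ s ∈ Finset.range (j + 1), ∑ s' ∈ Finset.range (j + 1),
      C (cf P j s s' * (-1) ^ ((j - s) + (j - s'))) * mon j (j - s) (j - s') := by
    have h1 := (hEXQ (A := κ) j).1 P hP
    calc act π !![0, -1; 1, 0] P
        = act π !![0, -1; 1, 0] (∑ s ∈ Finset.range (j + 1), ∑ s' ∈ Finset.range (j + 1),
            C (cf P j s s') * mon j s s') := by rw [← h1]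
      _ = ∑ s ∈ Finset.range (j + 1), ∑ s' ∈ Finset.range (j + 1),
            act π !![0, -1; 1, 0] (C (cf P j s s') * mon j s s') := by
          rw [map_sum]
          refine Finset.sum_congr rfl fun s _ => ?_
          rw [map_sum]
      _ = _ := by
          refine Finset.sum_congr rfl fun s hs => Finset.sum_congr rfl fun s' hs' => ?_
          rw [Finset.mem_range] at hs hs'
          rw [map_mul, CFW_act d t π j s s' (by omega) (by omega), C_mul, mul_assoc]
          have h2 : act π !![0, -1; 1, 0] (C (cf P j s s') : Pol κ) = C (cf P j s s') :=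
            (act π !![0, -1; 1, 0]).commutes (cf P j s s')
          rw [h2]
  have hcf : ∀ s s' : ℕ, s ≤ j → s' ≤ j →
      cf (C (cf P j s s' * (-1) ^ ((j - s) + (j - s'))) * mon j (j - s) (j - s') : Pol κ) j a b =
      if s = j - a ∧ s' = j - b then cf P j s s' * (-1) ^ ((j - s) + (j - s')) else 0 := by
    intro s s' hs hs'
    have h2 : cf (C (cf P j s s' * (-1) ^ ((j - s) + (j - s'))) * mon j (j - s) (j - s') : Pol κ)
        j a b = cf P j s s' * (-1) ^ ((j - s) + (j - s')) *
          cf (mon j (j - s) (j - s') : Pol κ) j a b := by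
      unfold cf
      rw [coeff_C_mul]
    rw [h2, (hEXQ (A := κ) j).2 (j - s) (j - s') a b (Nat.sub_le _ _) (Nat.sub_le _ _) ha hb]
    by_cases h : s = j - a ∧ s' = j - b
    · rw [if_pos h, if_pos (by omega), mul_one]
    · rw [if_neg h, if_neg (by omega), mul_zero]
  have hsum : cf (act π !![0, -1; 1, 0] P) j a b = ∑ s ∈ Finset.range (j + 1),
      ∑ s' ∈ Finset.range (j + 1),
      cf (C (cf P j s s' * (-1) ^ ((j - s) + (j - s'))) * mon j (j - s) (j - s') : Pol κ) j a b := by
    rw [hact]
    unfold cf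
    rw [coeff_sum]
    refine Finset.sum_congr rfl fun s _ => ?_
    rw [coeff_sum]
  rw [hsum, Finset.sum_eq_single (j - a), Finset.sum_eq_single (j - b)]
  · rw [hcf (j - a) (j - b) (Nat.sub_le _ _) (Nat.sub_le _ _), if_pos ⟨rfl, rfl⟩,
      Nat.sub_sub_self ha, Nat.sub_sub_self hb, mul_comm]
  · intro s' hs' hne
    rw [Finset.mem_range] at hs'
    rw [hcf (j - a) s' (Nat.sub_le _ _) (by omega), if_neg (fun h => hne h.2)]
  · intro h
    exact absurd (Finset.mem_range.2 (by omega)) h
  · intro s hs hne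
    rw [Finset.mem_range] at hs
    refine Finset.sum_eq_zero fun s' hs' => ?_
    rw [Finset.mem_range] at hs'
    rw [hcf s s' (by omega) (by omega), if_neg (fun h => hne h.1)]
  · intro h
    exact absurd (Finset.mem_range.2 (by omega)) h

end Pool.Agent.OE
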